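import Mathlib

/-!
# MP_4cb54f_co: admissible parameters of double and triple arrays have `v ≥ r + c - 1`

A triple `(v, r, c)` is admissible when `r, c ≥ 2`, `max r c < v ≤ r c / 2`, `v ∣ r c` and, with
`e = r c / v`, also `r - 1 ∣ c (e - 1)` and `c - 1 ∣ r (e - 1)`.  We show that every admissible
triple satisfies `v ≥ r + c - 1`.

Proof.  Put `P = r - 1`, `Q = c - 1`, `f = e - 1`.  With `g₁ = gcd P (Q+1)` and
`g₂ = gcd Q (P+1)` we have `P = g₁ p`, `Q = g₂ q`, `p ∣ f`, `q ∣ f`, and `g₁ g₂ ∣ P + Q + 1`.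
Write `h = gcd p q`, `p = h p'`, `q = h q'`, `f = h p' q' m`, `P - f = h p' a`, `Q - f = h q' b`.
Then `f + 1 ∣ a b`, and `v < r + c - 1` would force `h < m`, which contradicts
`g₁ g₂ ≤ P + Q + 1`.
-/

namespace Pool.Agent.Results.MP_4cb54f_co.NoFewSymbols

/-- Admissibility of `(v, r, c)` for double (equivalently, triple) arrays: `r, c ≥ 2`,
`max r c < v ≤ r c / 2`, `v` divides `r c` and, for `e = r c / v`, `r - 1` divides `c (e - 1)`
and `c - 1` divides `r (e - 1)`.  All numbers are natural numbers; in this range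
`r - 1`, `c - 1`, `e - 1` are true differences and `r c / v` is an exact quotient. -/
def Admissible (v r c : ℕ) : Prop :=
  2 ≤ r ∧ 2 ≤ c ∧ max r c < v ∧ 2 * v ≤ r * c ∧ v ∣ r * c ∧
    (r - 1) ∣ c * (r * c / v - 1) ∧ (c - 1) ∣ r * (r * c / v - 1)

/-- Sanity check: the parameters `(10, 5, 6)` of the smallest triple arrays are admissible, and they
attain the bound. -/
theorem admissible_example : Admissible 10 5 6 := by
  refine ⟨by norm_num, by norm_num, by norm_num, by norm_num, by norm_num, ?_, ?_⟩ <;>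
    norm_num

/-- The arithmetic heart, in the shifted variables `P = r - 1`, `Q = c - 1`, `f = e - 1`. -/
theorem key (P Q f : ℕ) (hf : 1 ≤ f) (hfP : f < P) (hfQ : f < Q)
    (h1 : P ∣ f * (Q + 1)) (h2 : Q ∣ f * (P + 1)) (h3 : (f + 1) ∣ (P + 1) * (Q + 1)) :
    (f + 1) * (P + Q + 1) ≤ (P + 1) * (Q + 1) := by
  by_contra hlt
  push Not at hlt
  have hP0 : 0 < P := by omega
  have hQ0 : 0 < Q := by omega
  -- first decomposition
  obtain ⟨g1, hg1⟩ : ∃ g, g = Nat.gcd P (Q + 1) := ⟨_, rfl⟩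
  obtain ⟨g2, hg2⟩ : ∃ g, g = Nat.gcd Q (P + 1) := ⟨_, rfl⟩
  have hg1P : g1 ∣ P := hg1 ▸ Nat.gcd_dvd_left _ _
  have hg1Q : g1 ∣ Q + 1 := hg1 ▸ Nat.gcd_dvd_right _ _
  have hg2Q : g2 ∣ Q := hg2 ▸ Nat.gcd_dvd_left _ _
  have hg2P : g2 ∣ P + 1 := hg2 ▸ Nat.gcd_dvd_right _ _
  have hg1pos : 0 < g1 := Nat.pos_of_dvd_of_pos hg1P hP0
  have hg2pos : 0 < g2 := Nat.pos_of_dvd_of_pos hg2Q hQ0
  obtain ⟨p, hp⟩ := hg1P
  obtain ⟨q, hq⟩ := hg2Q
  obtain ⟨s, hs⟩ := hg1Q
  obtain ⟨t, ht⟩ := hg2P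
  have hp0 : 0 < p := by
    rcases Nat.eq_zero_or_pos p with h | h
    · subst h; simp at hp; omega
    · exact h
  have hq0 : 0 < q := by
    rcases Nat.eq_zero_or_pos q with h | h
    · subst h; simp at hq; omega
    · exact h
  have hps : Nat.Coprime p s := by
    have := Nat.coprime_div_gcd_div_gcd (m := P) (n := Q + 1) (by rw [← hg1]; exact hg1pos)
    rw [← hg1] at this
    rw [hp, hs] at this
    rwa [Nat.mul_div_cancel_left _ hg1pos, Nat.mul_div_cancel_left _ hg1pos] at this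
  have hqt : Nat.Coprime q t := by
    have := Nat.coprime_div_gcd_div_gcd (m := Q) (n := P + 1) (by rw [← hg2]; exact hg2pos)
    rw [← hg2] at this
    rw [hq, ht] at this
    rwa [Nat.mul_div_cancel_left _ hg2pos, Nat.mul_div_cancel_left _ hg2pos] at this
  have hpf : p ∣ f := by
    have h : g1 * p ∣ g1 * (f * s) := by
      have : g1 * (f * s) = f * (Q + 1) := by rw [hs]; ring
      rw [this, ← hp]; exact h1
    have h' := Nat.dvd_of_mul_dvd_mul_left hg1pos h
    exact hps.dvd_of_dvd_mul_right h'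
  have hqf : q ∣ f := by
    have h : g2 * q ∣ g2 * (f * t) := by
      have : g2 * (f * t) = f * (P + 1) := by rw [ht]; ring
      rw [this, ← hq]; exact h2
    have h' := Nat.dvd_of_mul_dvd_mul_left hg2pos h
    exact hqt.dvd_of_dvd_mul_right h'
  -- `g1 g2 ≤ P + Q + 1`
  have hg12 : Nat.Coprime g1 g2 := by
    have h : Nat.Coprime P (P + 1) := by simp
    exact Nat.Coprime.coprime_dvd_left ⟨p, hp⟩ (Nat.Coprime.coprime_dvd_right ⟨t, ht⟩ h)
  have hle : g1 * g2 ≤ P + Q + 1 := by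
    apply Nat.le_of_dvd (by omega)
    apply Nat.Coprime.mul_dvd_of_dvd_of_dvd hg12
    · have : P + Q + 1 = P + (Q + 1) := by ring
      rw [this]
      exact dvd_add ⟨p, hp⟩ ⟨s, hs⟩
    · have : P + Q + 1 = Q + (P + 1) := by ring
      rw [this]
      exact dvd_add ⟨q, hq⟩ ⟨t, ht⟩
  -- second decomposition
  obtain ⟨h, hh⟩ : ∃ g, g = Nat.gcd p q := ⟨_, rfl⟩
  have hhpos : 0 < h := by rw [hh]; exact Nat.gcd_pos_of_pos_left _ hp0
  obtain ⟨p', hp'⟩ : h ∣ p := hh ▸ Nat.gcd_dvd_left _ _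
  obtain ⟨q', hq'⟩ : h ∣ q := hh ▸ Nat.gcd_dvd_right _ _
  have hcop : Nat.Coprime p' q' := by
    have := Nat.coprime_div_gcd_div_gcd (m := p) (n := q) (by rw [← hh]; exact hhpos)
    rw [← hh] at this
    rw [hp', hq'] at this
    rwa [Nat.mul_div_cancel_left _ hhpos, Nat.mul_div_cancel_left _ hhpos] at this
  obtain ⟨f', hf'⟩ : h ∣ f := (Dvd.intro _ hp'.symm).trans hpf
  have hp'f' : p' ∣ f' := by
    rw [hp', hf'] at hpf
    exact Nat.dvd_of_mul_dvd_mul_left hhpos hpf
  have hq'f' : q' ∣ f' := by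
    rw [hq', hf'] at hqf
    exact Nat.dvd_of_mul_dvd_mul_left hhpos hqf
  obtain ⟨m, hm⟩ : p' * q' ∣ f' := hcop.mul_dvd_of_dvd_of_dvd hp'f' hq'f'
  have hfm : f = h * p' * q' * m := by rw [hf', hm]; ring
  have hp'0 : 0 < p' := by
    rcases Nat.eq_zero_or_pos p' with h0 | h0
    · subst h0; simp at hp'; omega
    · exact h0
  have hq'0 : 0 < q' := by
    rcases Nat.eq_zero_or_pos q' with h0 | h0
    · subst h0; simp at hq'; omega
    · exact h0
  -- `P - f = h p' a`, `Q - f = h q' b`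
  have hPg : P = h * p' * g1 := by rw [hp, hp']; ring
  have hQg : Q = h * q' * g2 := by rw [hq, hq']; ring
  have ha : q' * m < g1 := by
    by_contra hcon
    push Not at hcon
    have : h * p' * g1 ≤ h * p' * (q' * m) := Nat.mul_le_mul_left _ hcon
    have h5 : h * p' * (q' * m) = f := by rw [hfm]; ring
    rw [h5, ← hPg] at this
    omega
  have hb : p' * m < g2 := by
    by_contra hcon
    push Not at hcon
    have : h * q' * g2 ≤ h * q' * (p' * m) := Nat.mul_le_mul_left _ hcon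
    have h5 : h * q' * (p' * m) = f := by rw [hfm]; ring
    rw [h5, ← hQg] at this
    omega
  obtain ⟨a, rfl⟩ : ∃ a, g1 = q' * m + a := ⟨g1 - q' * m, by omega⟩
  obtain ⟨b, rfl⟩ : ∃ b, g2 = p' * m + b := ⟨g2 - p' * m, by omega⟩
  have ha0 : 0 < a := by omega
  have hb0 : 0 < b := by omega
  -- `f + 1 ∣ a b`
  have hPa : P = f + h * p' * a := by rw [hPg, hfm]; ring
  have hQb : Q = f + h * q' * b := by rw [hQg, hfm]; ring
  have hdiv1 : (f + 1) ∣ (h * p' * a) * (h * q' * b) := by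
    have e1 : (P + 1) * (Q + 1)
        = (f + 1) * ((f + 1) + h * p' * a + h * q' * b) + (h * p' * a) * (h * q' * b) := by
      rw [hPa, hQb]; ring
    rw [e1] at h3
    exact (Nat.dvd_add_right (Dvd.intro _ rfl)).mp h3
  have hcf : Nat.Coprime (f + 1) f := by simp
  have hch : Nat.Coprime (f + 1) (h * p') := by
    apply Nat.Coprime.coprime_dvd_right _ hcf
    exact ⟨q' * m, by rw [hfm]; ring⟩
  have hch2 : Nat.Coprime (f + 1) (h * q') := by
    apply Nat.Coprime.coprime_dvd_right _ hcf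
    exact ⟨p' * m, by rw [hfm]; ring⟩
  have hdiv2 : (f + 1) ∣ a * b := by
    have e2 : (h * p' * a) * (h * q' * b) = (h * p') * ((h * q') * (a * b)) := by ring
    rw [e2] at hdiv1
    exact hch2.dvd_of_dvd_mul_left (hch.dvd_of_dvd_mul_left hdiv1)
  have hab : f + 1 ≤ a * b := Nat.le_of_dvd (Nat.mul_pos ha0 hb0) hdiv2
  -- `h < m`
  have hhm : h < m := by
    by_contra hcon
    push Not at hcon
    -- then `(P-f)(Q-f) ≥ f (f+1)`
    have e3 : (P + 1) * (Q + 1)
        = (f + 1) * (P + Q + 1) + (h * p' * a) * (h * q' * b) - f * (f + 1) := by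
      rw [hPa, hQb]
      apply Nat.eq_sub_of_add_eq
      ring
    have e4 : f * (f + 1) ≤ (h * p' * a) * (h * q' * b) := by
      calc f * (f + 1) ≤ f * (a * b) := Nat.mul_le_mul_left _ hab
        _ = (h * p' * q' * (a * b)) * m := by rw [hfm]; ring
        _ ≤ (h * p' * q' * (a * b)) * h := Nat.mul_le_mul_left _ hcon
        _ = (h * p' * a) * (h * q' * b) := by ring
    omega
  -- contradiction
  have e5 : (q' * m + a) * (p' * m + b) = p' * q' * m * m + p' * a * m + q' * b * m + a * b := by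
    ring
  have e6 : P + Q + 1 = p' * q' * m * h + f + p' * a * h + q' * b * h + 1 := by
    rw [hPa, hQb, hfm]; ring
  rw [e5, e6] at hle
  have i1 : p' * q' * m * h < p' * q' * m * m := by
    apply Nat.mul_lt_mul_of_pos_left hhm
    have : 0 < m := by omega
    positivity
  have i2 : p' * a * h ≤ p' * a * m := Nat.mul_le_mul_left _ hhm.le
  have i3 : q' * b * h ≤ q' * b * m := Nat.mul_le_mul_left _ hhm.le
  omega

/-- Every admissible parameter set `(v, r, c)` for double or triple arrays satisfies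
`v ≥ r + c - 1`. -/
theorem result : ∀ v r c : ℕ, Admissible v r c → r + c - 1 ≤ v := by
  rintro v r c ⟨hr, hc, hv, h2v, hdvd, hd1, hd2⟩
  have hv0 : 0 < v := by omega
  obtain ⟨e, he⟩ := hdvd
  have hre : r * c / v = e := by rw [he]; exact Nat.mul_div_cancel_left _ hv0
  rw [hre] at hd1 hd2
  have hrv : r < v := lt_of_le_of_lt (le_max_left _ _) hv
  have hcv : c < v := lt_of_le_of_lt (le_max_right _ _) hv
  have he2 : 2 ≤ e := by
    by_contra hcon
    have : e ≤ 1 := by omega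
    have : v * e ≤ v * 1 := Nat.mul_le_mul_left _ this
    omega
  have her : e < r := by
    by_contra hcon
    push Not at hcon
    have h5 : c * r < v * r := Nat.mul_lt_mul_of_pos_right hcv (by omega)
    have h6 : v * r ≤ v * e := Nat.mul_le_mul_left _ hcon
    have h7 : c * r = r * c := Nat.mul_comm _ _
    omega
  have hec : e < c := by
    by_contra hcon
    push Not at hcon
    have h5 : r * c < v * c := Nat.mul_lt_mul_of_pos_right hrv (by omega)
    have h6 : v * c ≤ v * e := Nat.mul_le_mul_left _ hcon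
    omega
  obtain ⟨P, rfl⟩ : ∃ P, r = P + 1 := ⟨r - 1, by omega⟩
  obtain ⟨Q, rfl⟩ : ∃ Q, c = Q + 1 := ⟨c - 1, by omega⟩
  obtain ⟨f, rfl⟩ : ∃ f, e = f + 1 := ⟨e - 1, by omega⟩
  simp only [Nat.add_sub_cancel] at hd1 hd2
  have hk := key P Q f (by omega) (by omega) (by omega)
    (by rw [Nat.mul_comm]; exact hd1) (by rw [Nat.mul_comm]; exact hd2)
    (by rw [he]; exact Dvd.intro_left _ rfl)
  rw [he, Nat.mul_comm v] at hk
  have := Nat.le_of_mul_le_mul_left hk (by omega)
  omega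

end Pool.Agent.Results.MP_4cb54f_co.NoFewSymbols
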